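import Mathlib

namespace Pool.Agent.H395.Sowing

noncomputable section

/-! ## Partizan games in Conway's sense -/

/-- Partizan games: a game is given by its Left options `L a` and its Right options `R b`. -/
inductive Game : Type 1
  | mk (α β : Type) (L : α → Game) (R : β → Game) : Game

open Game

/-- `leLf G H` is the pair of propositions (`G ≤ H`, `G ⧏ H`), defined by simultaneous recursion;
the recursion equations are `le_mk` and `lf_mk` below. -/
def leLf (x : Game) : Game → Prop × Prop :=
  Game.rec (motive := fun _ => Game → Prop × Prop)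
    (fun _ _ _ _ ihL ihR y =>
      Game.rec (motive := fun _ => Prop × Prop)
        (fun γ δ L' R' ihL' ihR' =>
          ((∀ i, (ihL i (mk γ δ L' R')).2) ∧ (∀ j, (ihR' j).2),
           (∃ i, (ihL' i).1) ∨ (∃ j, (ihR j (mk γ δ L' R')).1))) y) x

/-- Conway's order `G ≤ H`. -/
def Le (x y : Game) : Prop := (leLf x y).1

/-- `G ⧏ H`, i.e. not `H ≤ G` (see `not_le_lf`). -/
def Lf (x y : Game) : Prop := (leLf x y).2

theorem le_mk {α β γ δ : Type} (L : α → Game) (R : β → Game) (L' : γ → Game) (R' : δ → Game) :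
    Le (mk α β L R) (mk γ δ L' R') ↔
      (∀ i, Lf (L i) (mk γ δ L' R')) ∧ ∀ j, Lf (mk α β L R) (R' j) := Iff.rfl

theorem lf_mk {α β γ δ : Type} (L : α → Game) (R : β → Game) (L' : γ → Game) (R' : δ → Game) :
    Lf (mk α β L R) (mk γ δ L' R') ↔
      (∃ i, Le (mk α β L R) (L' i)) ∨ ∃ j, Le (R j) (mk γ δ L' R') := Iff.rfl

theorem not_le_lf (x : Game) : ∀ y : Game, (¬ Le x y ↔ Lf y x) ∧ (¬ Lf x y ↔ Le y x) := by
  induction x with
  | mk α β L R ihL ihR =>
    intro y
    induction y with
    | mk γ δ L' R' ihL' ihR' =>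
      constructor
      · rw [le_mk, lf_mk, not_and_or, not_forall, not_forall]
        constructor
        · rintro (⟨i, hi⟩ | ⟨j, hj⟩)
          · exact Or.inl ⟨i, ((ihL i _).2).1 hi⟩
          · exact Or.inr ⟨j, ((ihR' j).2).1 hj⟩
        · rintro (⟨i, hi⟩ | ⟨j, hj⟩)
          · exact Or.inl ⟨i, ((ihL i _).2).2 hi⟩
          · exact Or.inr ⟨j, ((ihR' j).2).2 hj⟩
      · rw [le_mk, lf_mk, not_or, not_exists, not_exists]
        constructor
        · rintro ⟨h1, h2⟩
          exact ⟨fun i => ((ihL' i).1).1 (h1 i), fun j => ((ihR j _).1).1 (h2 j)⟩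
        · rintro ⟨h1, h2⟩
          exact ⟨fun i => ((ihL' i).1).2 (h1 i), fun j => ((ihR j _).1).2 (h2 j)⟩

/-- Conway's definition of the order: `G ≤ H` iff no Left option of `G` is `≥ H` and no Right option
of `H` is `≤ G`. -/
theorem le_iff {α β γ δ : Type} (L : α → Game) (R : β → Game) (L' : γ → Game) (R' : δ → Game) :
    Le (mk α β L R) (mk γ δ L' R') ↔
      (∀ i, ¬ Le (mk γ δ L' R') (L i)) ∧ ∀ j, ¬ Le (R' j) (mk α β L R) := by
  rw [le_mk]
  constructor
  · rintro ⟨h1, h2⟩
    exact ⟨fun i => ((not_le_lf _ _).1).2 (h1 i), fun j => ((not_le_lf _ _).1).2 (h2 j)⟩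
  · rintro ⟨h1, h2⟩
    exact ⟨fun i => ((not_le_lf _ _).1).1 (h1 i), fun j => ((not_le_lf _ _).1).1 (h2 j)⟩

/-- Equality of values of games (`G ≤ H` and `H ≤ G`). -/
def Eqv (x y : Game) : Prop := Le x y ∧ Le y x

theorem le_refl (x : Game) : Le x x := by
  induction x with
  | mk α β L R ihL ihR =>
    rw [le_mk]
    refine ⟨fun i => ?_, fun j => ?_⟩
    · have h := ihL i
      revert h
      generalize hx : L i = z
      intro h
      cases z with
      | mk γ δ L' R' =>
        rw [lf_mk]
        exact Or.inl ⟨i, by rw [hx]; exact h⟩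
    · have h := ihR j
      revert h
      generalize hx : R j = z
      intro h
      cases z with
      | mk γ δ L' R' =>
        rw [lf_mk]
        exact Or.inr ⟨j, by rw [hx]; exact h⟩

theorem lf_of_le_left {x : Game} {γ δ : Type} {L' : γ → Game} {R' : δ → Game} (i : γ)
    (h : Le x (L' i)) : Lf x (mk γ δ L' R') := by
  cases x with
  | mk α β L R => exact Or.inl ⟨i, h⟩

theorem lf_of_right_le {y : Game} {α β : Type} {L : α → Game} {R : β → Game} (j : β)
    (h : Le (R j) y) : Lf (mk α β L R) y := by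
  cases y with
  | mk γ δ L' R' => exact Or.inr ⟨j, h⟩

theorem left_lf {y : Game} {α β : Type} {L : α → Game} {R : β → Game}
    (h : Le (mk α β L R) y) (i : α) : Lf (L i) y := by
  cases y with
  | mk γ δ L' R' => exact ((le_mk L R L' R').1 h).1 i

theorem lf_right {x : Game} {γ δ : Type} {L' : γ → Game} {R' : δ → Game}
    (h : Le x (mk γ δ L' R')) (j : δ) : Lf x (R' j) := by
  cases x with
  | mk α β L R => exact ((le_mk L R L' R').1 h).2 j

theorem not_lf_of_le {x y : Game} (h : Le x y) : ¬ Lf y x := by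
  intro h'
  exact ((not_le_lf x y).1).2 h' h

theorem le_trans_aux {α β ζ η : Type} {xL : α → Game} {xR : β → Game} {y : Game} {zL : ζ → Game}
    {zR : η → Game}
    (h₁ : ∀ i, Le y (mk ζ η zL zR) → Le (mk ζ η zL zR) (xL i) → Le y (xL i))
    (h₂ : ∀ j, Le (zR j) (mk α β xL xR) → Le (mk α β xL xR) y → Le (zR j) y)
    (hxy : Le (mk α β xL xR) y) (hyz : Le y (mk ζ η zL zR)) :
    Le (mk α β xL xR) (mk ζ η zL zR) := by
  rw [le_iff]
  constructor
  · intro i h
    exact not_lf_of_le (h₁ i hyz h) (left_lf hxy i)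
  · intro j h
    exact not_lf_of_le (h₂ j h hxy) (lf_right hyz j)

theorem le_trans_all (x : Game) : ∀ y z : Game,
    (Le x y → Le y z → Le x z) ∧ (Le y z → Le z x → Le y x) ∧ (Le z x → Le x y → Le z y) := by
  induction x with
  | mk α β xL xR IHxl IHxr =>
    intro y
    induction y with
    | mk γ δ yL yR IHyl IHyr =>
      intro z
      induction z with
      | mk ζ η zL zR IHzl IHzr =>
        exact ⟨le_trans_aux (fun i => (IHxl i _ _).2.1) fun j => (IHzr j).2.2,
          le_trans_aux (fun i => (IHyl i _).2.2) fun j => (IHxr j _ _).1,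
          le_trans_aux (fun i => (IHzl i).1) fun j => (IHyr j _).2.1⟩

theorem le_trans {x y z : Game} (h1 : Le x y) (h2 : Le y z) : Le x z :=
  (le_trans_all x y z).1 h1 h2

theorem Eqv.refl (x : Game) : Eqv x x := ⟨le_refl x, le_refl x⟩

theorem Eqv.symm {x y : Game} (h : Eqv x y) : Eqv y x := ⟨h.2, h.1⟩

theorem Eqv.trans {x y z : Game} (h1 : Eqv x y) (h2 : Eqv y z) : Eqv x z :=
  ⟨le_trans h1.1 h2.1, le_trans h2.2 h1.2⟩

theorem lf_of_le_of_lf {x y z : Game} (h1 : Le x y) (h2 : Lf y z) : Lf x z := by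
  by_contra h
  have h' := ((not_le_lf x z).2).1 h
  exact not_lf_of_le (le_trans h' h1) h2

theorem lf_of_lf_of_le {x y z : Game} (h1 : Lf x y) (h2 : Le y z) : Lf x z := by
  by_contra h
  have h' := ((not_le_lf x z).2).1 h
  exact not_lf_of_le (le_trans h2 h') h1

/-! ### Sums -/

/-- The disjunctive sum `G + H`; the recursion equation is `add_mk` below. -/
def add (x : Game) : Game → Game :=
  Game.rec (motive := fun _ => Game → Game)
    (fun α β _ _ ihL ihR y =>
      Game.rec (motive := fun _ => Game)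
        (fun γ δ L' R' ihL' ihR' =>
          mk (α ⊕ γ) (β ⊕ δ)
            (Sum.elim (fun i => ihL i (mk γ δ L' R')) ihL')
            (Sum.elim (fun j => ihR j (mk γ δ L' R')) ihR')) y) x

theorem add_mk {α β γ δ : Type} (L : α → Game) (R : β → Game) (L' : γ → Game) (R' : δ → Game) :
    add (mk α β L R) (mk γ δ L' R') =
      mk (α ⊕ γ) (β ⊕ δ)
        (Sum.elim (fun i => add (L i) (mk γ δ L' R')) (fun i => add (mk α β L R) (L' i)))
        (Sum.elim (fun j => add (R j) (mk γ δ L' R')) (fun j => add (mk α β L R) (R' j))) := rfl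

theorem add_right_mono (x : Game) : ∀ y z : Game,
    (Le x y → Le (add x z) (add y z)) ∧ (Lf x y → Lf (add x z) (add y z)) := by
  induction x with
  | mk α β xL xR IHxl IHxr =>
    intro y
    induction y with
    | mk γ δ yL yR IHyl IHyr =>
      intro z
      induction z with
      | mk ζ η zL zR IHzl IHzr =>
        constructor
        · intro h
          rw [add_mk, add_mk, le_mk]
          constructor
          · rintro (i | k)
            · exact (IHxl i _ (mk ζ η zL zR)).2 (left_lf h i)
            · exact lf_of_le_left (Sum.inr k) ((IHzl k).1 h)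
          · rintro (j | k)
            · exact (IHyr j (mk ζ η zL zR)).2 (lf_right h j)
            · exact lf_of_right_le (Sum.inr k) ((IHzr k).1 h)
        · intro h
          rw [lf_mk] at h
          rcases h with ⟨i, hi⟩ | ⟨j, hj⟩
          · exact lf_of_le_left (Sum.inl i) ((IHyl i (mk ζ η zL zR)).1 hi)
          · exact lf_of_right_le (Sum.inl j) ((IHxr j _ (mk ζ η zL zR)).1 hj)

theorem add_left_mono (x : Game) : ∀ y z : Game,
    (Le x y → Le (add z x) (add z y)) ∧ (Lf x y → Lf (add z x) (add z y)) := by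
  induction x with
  | mk α β xL xR IHxl IHxr =>
    intro y
    induction y with
    | mk γ δ yL yR IHyl IHyr =>
      intro z
      induction z with
      | mk ζ η zL zR IHzl IHzr =>
        constructor
        · intro h
          rw [add_mk, add_mk, le_mk]
          constructor
          · rintro (k | i)
            · exact lf_of_le_left (Sum.inl k) ((IHzl k).1 h)
            · exact (IHxl i _ (mk ζ η zL zR)).2 (left_lf h i)
          · rintro (k | j)
            · exact lf_of_right_le (Sum.inl k) ((IHzr k).1 h)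
            · exact (IHyr j (mk ζ η zL zR)).2 (lf_right h j)
        · intro h
          rw [lf_mk] at h
          rcases h with ⟨i, hi⟩ | ⟨j, hj⟩
          · exact lf_of_le_left (Sum.inr i) ((IHyl i (mk ζ η zL zR)).1 hi)
          · exact lf_of_right_le (Sum.inr j) ((IHxr j _ (mk ζ η zL zR)).1 hj)

theorem add_congr {x x' y y' : Game} (h : Eqv x x') (h' : Eqv y y') :
    Eqv (add x y) (add x' y') :=
  ⟨le_trans ((add_right_mono x x' y).1 h.1) ((add_left_mono y y' x').1 h'.1),
    le_trans ((add_left_mono y' y x').1 h'.2) ((add_right_mono x' x y).1 h.2)⟩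

/-! ## The game Sowing

A row of pots is a function `x : ℤ → ℕ` (`x j` seeds in pot `j`) with finite support. -/

/-- A Sowing position: only finitely many pots are nonempty. -/
def IsPosition (x : ℤ → ℕ) : Prop := (Function.support x).Finite

/-- Left may sow pot `i`: it is nonempty, and the pot where the last seed lands is nonempty. -/
def LegalLeft (x : ℤ → ℕ) (i : ℤ) : Prop := x i ≠ 0 ∧ x (i + x i) ≠ 0

/-- The position after Left sows pot `i` to the right. -/
def sowLeft (x : ℤ → ℕ) (i : ℤ) : ℤ → ℕ :=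
  fun j => if j = i then 0 else if i < j ∧ j ≤ i + x i then x j + 1 else x j

/-- Right may sow pot `i`: it is nonempty, and the pot where the last seed lands is nonempty. -/
def LegalRight (x : ℤ → ℕ) (i : ℤ) : Prop := x i ≠ 0 ∧ x (i - x i) ≠ 0

/-- The position after Right sows pot `i` to the left. -/
def sowRight (x : ℤ → ℕ) (i : ℤ) : ℤ → ℕ :=
  fun j => if j = i then 0 else if i - x i ≤ j ∧ j < i then x j + 1 else x j

/-- `Form g x`: the game tree of the Sowing position `x` is the game `g`: every Left (Right) move of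
`x` leads to a position whose tree is a Left (Right) option of `g`, and every Left (Right) option
of `g` arises in this way. -/
def Form : Game → (ℤ → ℕ) → Prop
  | .mk _ _ L R, x =>
    ((∀ i, LegalLeft x i → ∃ a, Form (L a) (sowLeft x i)) ∧
      ∀ a, ∃ i, LegalLeft x i ∧ Form (L a) (sowLeft x i)) ∧
    ((∀ i, LegalRight x i → ∃ b, Form (R b) (sowRight x i)) ∧
      ∀ b, ∃ i, LegalRight x i ∧ Form (R b) (sowRight x i))

/-- The Sowing position `x` has value `v`. -/
def HasValue (x : ℤ → ℕ) (v : Game) : Prop := ∃ g, Form g x ∧ Eqv g v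

/-- `x` is supported on `[a, b]` and has at most `N` seeds. -/
def Inv (a b : ℤ) (N : ℕ) (x : ℤ → ℕ) : Prop :=
  (∀ i, x i ≠ 0 → a ≤ i ∧ i ≤ b) ∧ ∑ i ∈ Finset.Icc a b, x i ≤ N

theorem exists_inv {x : ℤ → ℕ} (hx : IsPosition x) : ∃ a b N, Inv a b N x := by
  obtain ⟨b, hb⟩ := hx.bddAbove
  obtain ⟨a, ha⟩ := hx.bddBelow
  exact ⟨a, b, _, fun i hi => ⟨ha hi, hb hi⟩, _root_.le_refl _⟩

theorem Inv.bound {a b : ℤ} {N : ℕ} {x : ℤ → ℕ} (h : Inv a b N x) (i : ℤ) : x i ≤ N := by
  by_cases hi : x i = 0
  · omega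
  · exact _root_.le_trans (Finset.single_le_sum (f := x) (fun _ _ => Nat.zero_le _)
      (Finset.mem_Icc.2 (h.1 i hi))) h.2

theorem Inv.left {a b : ℤ} {N : ℕ} {x : ℤ → ℕ} (h : Inv a b N x) {i : ℤ} (hi : LegalLeft x i) :
    Inv a b N (sowLeft x i) := by
  have hia := h.1 i hi.1
  have hib := h.1 _ hi.2
  refine ⟨?_, ?_⟩
  · intro j hj
    unfold sowLeft at hj
    split_ifs at hj with h1 h2
    · exact absurd rfl hj
    · omega
    · exact h.1 j hj
  · have hpt : ∀ j, sowLeft x i j + (if j = i then x i else 0) =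
        x j + (if i < j ∧ j ≤ i + x i then 1 else 0) := by
      intro j
      unfold sowLeft
      by_cases h1 : j = i
      · subst h1
        simp
      · simp only [h1, if_false]
        split_ifs <;> rfl
    have hs : ∑ j ∈ Finset.Icc a b, (sowLeft x i j + (if j = i then x i else 0)) =
        ∑ j ∈ Finset.Icc a b, (x j + (if i < j ∧ j ≤ i + x i then 1 else 0)) :=
      Finset.sum_congr rfl fun j _ => hpt j
    rw [Finset.sum_add_distrib, Finset.sum_add_distrib, Finset.sum_ite_eq', if_pos
      (Finset.mem_Icc.2 hia), ← Finset.card_filter] at hs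
    have hc : (Finset.filter (fun j => i < j ∧ j ≤ i + x i) (Finset.Icc a b)).card ≤ x i := by
      have hsub : Finset.filter (fun j => i < j ∧ j ≤ i + x i) (Finset.Icc a b) ⊆
          Finset.Ioc i (i + x i) := by
        intro j hj
        rw [Finset.mem_filter] at hj
        exact Finset.mem_Ioc.2 hj.2
      have := Finset.card_le_card hsub
      rw [Int.card_Ioc] at this
      omega
    have := h.2
    omega

theorem Inv.right {a b : ℤ} {N : ℕ} {x : ℤ → ℕ} (h : Inv a b N x) {i : ℤ} (hi : LegalRight x i) :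
    Inv a b N (sowRight x i) := by
  have hia := h.1 i hi.1
  have hib := h.1 _ hi.2
  refine ⟨?_, ?_⟩
  · intro j hj
    unfold sowRight at hj
    split_ifs at hj with h1 h2
    · exact absurd rfl hj
    · omega
    · exact h.1 j hj
  · have hpt : ∀ j, sowRight x i j + (if j = i then x i else 0) =
        x j + (if i - x i ≤ j ∧ j < i then 1 else 0) := by
      intro j
      unfold sowRight
      by_cases h1 : j = i
      · subst h1
        simp
      · simp only [h1, if_false]
        split_ifs <;> rfl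
    have hs : ∑ j ∈ Finset.Icc a b, (sowRight x i j + (if j = i then x i else 0)) =
        ∑ j ∈ Finset.Icc a b, (x j + (if i - x i ≤ j ∧ j < i then 1 else 0)) :=
      Finset.sum_congr rfl fun j _ => hpt j
    rw [Finset.sum_add_distrib, Finset.sum_add_distrib, Finset.sum_ite_eq', if_pos
      (Finset.mem_Icc.2 hia), ← Finset.card_filter] at hs
    have hc : (Finset.filter (fun j => i - x i ≤ j ∧ j < i) (Finset.Icc a b)).card ≤ x i := by
      have hsub : Finset.filter (fun j => i - x i ≤ j ∧ j < i) (Finset.Icc a b) ⊆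
          Finset.Ico (i - x i) i := by
        intro j hj
        rw [Finset.mem_filter] at hj
        exact Finset.mem_Ico.2 hj.2
      have := Finset.card_le_card hsub
      rw [Int.card_Ico] at this
      omega
    have := h.2
    omega

/-! ### Every Sowing position has a finite game tree -/

/-- rank of a pot with `v ≤ N` seeds -/
def rk (N v : ℕ) : ℕ := if v = 0 then 0 else N + 1 - v

/-- the vector of ranks, leftmost pot first -/
def vec (a b : ℤ) (N : ℕ) (x : ℤ → ℕ) : Fin (b - a + 1).toNat → ℕ := fun j => rk N (x (a + (j : ℕ)))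

theorem vec_left {a b : ℤ} {N : ℕ} {x : ℤ → ℕ} (h : Inv a b N x) {i : ℤ} (hi : LegalLeft x i) :
    Pi.Lex (· < ·) (fun {_} => (· < ·)) (vec a b N (sowLeft x i)) (vec a b N x) := by
  have hia := h.1 i hi.1
  have hN := h.bound i
  have hi1 := hi.1
  refine ⟨⟨(i - a).toNat, by omega⟩, ?_, ?_⟩
  · intro j hj
    have hj' : (j : ℕ) < (i - a).toNat := hj
    unfold vec sowLeft
    have h1 : ¬ (a + ((j : ℕ) : ℤ) = i) := by omega
    have h2 : ¬ (i < a + ((j : ℕ) : ℤ) ∧ a + ((j : ℕ) : ℤ) ≤ i + x i) := by omega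
    simp only [h1, h2, if_false]
  · show rk N (sowLeft x i (a + (((i - a).toNat : ℕ) : ℤ))) < rk N (x (a + (((i - a).toNat : ℕ) : ℤ)))
    have h1 : a + (((i - a).toNat : ℕ) : ℤ) = i := by omega
    rw [h1]
    unfold sowLeft rk
    simp only [if_true]
    rw [if_neg hi1]
    omega

theorem vec_right {a b : ℤ} {N : ℕ} {x : ℤ → ℕ} (h : Inv a b N x) {i : ℤ} (hi : LegalRight x i) :
    Pi.Lex (· < ·) (fun {_} => (· < ·)) (vec a b N (sowRight x i)) (vec a b N x) := by
  have hia := h.1 i hi.1
  have hib := h.1 _ hi.2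
  have hN := h.bound (i - x i)
  have hi1 := hi.1
  have hi2 := hi.2
  have hN' := (h.right hi).bound (i - x i)
  refine ⟨⟨(i - x i - a).toNat, by omega⟩, ?_, ?_⟩
  · intro j hj
    have hj' : (j : ℕ) < (i - x i - a).toNat := hj
    unfold vec sowRight
    have h1 : ¬ (a + ((j : ℕ) : ℤ) = i) := by omega
    have h2 : ¬ (i - x i ≤ a + ((j : ℕ) : ℤ) ∧ a + ((j : ℕ) : ℤ) < i) := by omega
    simp only [h1, h2, if_false]
  · show rk N (sowRight x i (a + (((i - x i - a).toNat : ℕ) : ℤ))) <
      rk N (x (a + (((i - x i - a).toNat : ℕ) : ℤ)))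
    have h1 : a + (((i - x i - a).toNat : ℕ) : ℤ) = i - x i := by omega
    rw [h1]
    have h3 : ¬ (i - (x i : ℤ) = i) := by omega
    have h4 : i - (x i : ℤ) ≤ i - x i ∧ i - (x i : ℤ) < i := by omega
    have h5 : sowRight x i (i - x i) = x (i - x i) + 1 := by
      unfold sowRight
      rw [if_neg h3, if_pos h4]
    rw [h5] at hN' ⊢
    unfold rk
    rw [if_neg hi2, if_neg (Nat.succ_ne_zero _)]
    omega

theorem exists_form_inv (a b : ℤ) (N : ℕ) (x : ℤ → ℕ) (h : Inv a b N x) : ∃ g, Form g x := by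
  have wf : WellFounded (Pi.Lex (ι := Fin (b - a + 1).toNat) (β := fun _ => ℕ) (· < ·)
      (fun {_} => (· < ·))) :=
    Pi.Lex.wellFounded (· < ·) (fun _ => wellFounded_lt)
  have key := (InvImage.wf (vec a b N) wf).induction (C := fun x => Inv a b N x → ∃ g, Form g x) x
  refine key ?_ h
  intro x ih hx
  choose fL hL using fun i : {i // LegalLeft x i} =>
    ih (sowLeft x i.1) (vec_left hx i.2) (hx.left i.2)
  choose fR hR using fun i : {i // LegalRight x i} =>
    ih (sowRight x i.1) (vec_right hx i.2) (hx.right i.2)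
  exact ⟨mk {i // LegalLeft x i} {i // LegalRight x i} fL fR,
    ⟨fun i hi => ⟨⟨i, hi⟩, hL ⟨i, hi⟩⟩, fun a => ⟨a.1, a.2, hL a⟩⟩,
    ⟨fun i hi => ⟨⟨i, hi⟩, hR ⟨i, hi⟩⟩, fun a => ⟨a.1, a.2, hR a⟩⟩⟩

/-- Every Sowing position has a (well-founded) game tree. -/
theorem exists_form {x : ℤ → ℕ} (hx : IsPosition x) : ∃ g, Form g x := by
  obtain ⟨a, b, N, h⟩ := exists_inv hx
  exact exists_form_inv a b N x h

theorem form_le (g : Game) : ∀ (h : Game) (x : ℤ → ℕ), Form g x → Form h x → Le g h ∧ Le h g := by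
  induction g with
  | mk α β L R ihL ihR =>
    intro h
    cases h with
    | mk γ δ L' R' =>
      intro x hg hh
      obtain ⟨⟨g1, g2⟩, ⟨g3, g4⟩⟩ := hg
      obtain ⟨⟨h1, h2⟩, ⟨h3, h4⟩⟩ := hh
      constructor
      · rw [le_mk]
        refine ⟨fun i => ?_, fun j => ?_⟩
        · obtain ⟨k, hk, hf⟩ := g2 i
          obtain ⟨c, hc⟩ := h1 k hk
          exact lf_of_le_left c (ihL i _ _ hf hc).1
        · obtain ⟨k, hk, hf⟩ := h4 j
          obtain ⟨c, hc⟩ := g3 k hk
          exact lf_of_right_le c (ihR c _ _ hc hf).1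
      · rw [le_mk]
        refine ⟨fun i => ?_, fun j => ?_⟩
        · obtain ⟨k, hk, hf⟩ := h2 i
          obtain ⟨c, hc⟩ := g1 k hk
          exact lf_of_le_left c (ihL c _ _ hc hf).2
        · obtain ⟨k, hk, hf⟩ := g4 j
          obtain ⟨c, hc⟩ := h3 k hk
          exact lf_of_right_le c (ihR j _ _ hf hc).2

/-- The value of a Sowing position is well defined. -/
theorem HasValue.unique {x : ℤ → ℕ} {v w : Game} (hv : HasValue x v) (hw : HasValue x w) :
    Eqv v w := by
  obtain ⟨g, hg, hgv⟩ := hv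
  obtain ⟨h, hh, hhw⟩ := hw
  exact hgv.symm.trans (Eqv.trans (form_le g h x hg hh) hhw)

/-! ### Juxtaposition of positions is the sum of games -/

section Juxt

variable {a b c d : ℤ} {N M : ℕ} {p q : ℤ → ℕ}

theorem juxt_left_p (hp : Inv a b N p) (hq : Inv c d M q) (hs : b + N < c) {i : ℤ} (hi : p i ≠ 0) :
    (LegalLeft (fun j => p j + q j) i ↔ LegalLeft p i) ∧
      sowLeft (fun j => p j + q j) i = fun j => sowLeft p i j + q j := by
  have hib := hp.1 i hi
  have hN := hp.bound i
  have hqi : q i = 0 := by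
    by_contra h
    have := (hq.1 i h).1
    omega
  have hql : q (i + p i) = 0 := by
    by_contra h
    have := (hq.1 _ h).1
    omega
  constructor
  · unfold LegalLeft
    simp only [hqi, add_zero, hql]
  · funext j
    unfold sowLeft
    simp only [hqi, add_zero]
    by_cases h1 : j = i
    · subst h1
      simp [hqi]
    · simp only [h1, if_false]
      split_ifs with h2
      · ring
      · rfl

theorem juxt_right_p (hp : Inv a b N p) (hq : Inv c d M q) (hs : b + N < c) {i : ℤ}
    (hi : p i ≠ 0) :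
    (LegalRight (fun j => p j + q j) i ↔ LegalRight p i) ∧
      sowRight (fun j => p j + q j) i = fun j => sowRight p i j + q j := by
  have hib := hp.1 i hi
  have hN := hp.bound i
  have hqi : q i = 0 := by
    by_contra h
    have := (hq.1 i h).1
    omega
  have hql : q (i - p i) = 0 := by
    by_contra h
    have := (hq.1 _ h).1
    omega
  constructor
  · unfold LegalRight
    simp only [hqi, add_zero, hql]
  · funext j
    unfold sowRight
    simp only [hqi, add_zero]
    by_cases h1 : j = i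
    · subst h1
      simp [hqi]
    · simp only [h1, if_false]
      split_ifs with h2
      · ring
      · rfl

theorem juxt_left_q (hp : Inv a b N p) (hq : Inv c d M q) (hs : b + M < c) {i : ℤ} (hi : q i ≠ 0) :
    (LegalLeft (fun j => p j + q j) i ↔ LegalLeft q i) ∧
      sowLeft (fun j => p j + q j) i = fun j => p j + sowLeft q i j := by
  have hic := hq.1 i hi
  have hpi : p i = 0 := by
    by_contra h
    have := (hp.1 i h).2
    omega
  have hpl : p (i + q i) = 0 := by
    by_contra h
    have := (hp.1 _ h).2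
    omega
  constructor
  · unfold LegalLeft
    simp only [hpi, zero_add, hpl]
  · funext j
    unfold sowLeft
    simp only [hpi, zero_add]
    by_cases h1 : j = i
    · subst h1
      simp [hpi]
    · simp only [h1, if_false]
      split_ifs with h2
      · ring
      · rfl

theorem juxt_right_q (hp : Inv a b N p) (hq : Inv c d M q) (hs : b + M < c) {i : ℤ}
    (hi : q i ≠ 0) :
    (LegalRight (fun j => p j + q j) i ↔ LegalRight q i) ∧
      sowRight (fun j => p j + q j) i = fun j => p j + sowRight q i j := by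
  have hic := hq.1 i hi
  have hM := hq.bound i
  have hpi : p i = 0 := by
    by_contra h
    have := (hp.1 i h).2
    omega
  have hpl : p (i - q i) = 0 := by
    by_contra h
    have := (hp.1 _ h).2
    omega
  constructor
  · unfold LegalRight
    simp only [hpi, zero_add, hpl]
  · funext j
    unfold sowRight
    simp only [hpi, zero_add]
    by_cases h1 : j = i
    · subst h1
      simp [hpi]
    · simp only [h1, if_false]
      split_ifs with h2
      · ring
      · rfl

end Juxt

theorem add_ne_zero_cases {m n : ℕ} (h : m + n ≠ 0) : m ≠ 0 ∨ n ≠ 0 := by omega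

theorem form_add {a b c d : ℤ} {N M : ℕ} (h1 : b + N < c) (h2 : b + M < c) (g : Game) :
    ∀ (h : Game) (p q : ℤ → ℕ), Inv a b N p → Inv c d M q → Form g p → Form h q →
      Form (add g h) (fun j => p j + q j) := by
  induction g with
  | mk α β L R ihL ihR =>
    intro h
    induction h with
    | mk γ δ L' R' ihL' ihR' =>
      intro p q hp hq hg hh
      have hg0 := hg
      have hh0 := hh
      obtain ⟨⟨g1, g2⟩, ⟨g3, g4⟩⟩ := hg
      obtain ⟨⟨k1, k2⟩, ⟨k3, k4⟩⟩ := hh
      rw [add_mk]
      refine ⟨⟨fun i hi => ?_, ?_⟩, ⟨fun i hi => ?_, ?_⟩⟩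
      · rcases add_ne_zero_cases hi.1 with hpi | hqi
        · have hj := juxt_left_p hp hq h1 hpi
          have hl := hj.1.1 hi
          obtain ⟨x, hx⟩ := g1 i hl
          refine ⟨Sum.inl x, ?_⟩
          rw [hj.2]
          exact ihL x (mk γ δ L' R') _ _ (hp.left hl) hq hx hh0
        · have hj := juxt_left_q hp hq h2 hqi
          have hl := hj.1.1 hi
          obtain ⟨x, hx⟩ := k1 i hl
          refine ⟨Sum.inr x, ?_⟩
          rw [hj.2]
          exact ihL' x _ _ hp (hq.left hl) hg0 hx
      · rintro (x | x)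
        · obtain ⟨i, hl, hx⟩ := g2 x
          have hj := juxt_left_p hp hq h1 hl.1
          refine ⟨i, hj.1.2 hl, ?_⟩
          rw [hj.2]
          exact ihL x (mk γ δ L' R') _ _ (hp.left hl) hq hx hh0
        · obtain ⟨i, hl, hx⟩ := k2 x
          have hj := juxt_left_q hp hq h2 hl.1
          refine ⟨i, hj.1.2 hl, ?_⟩
          rw [hj.2]
          exact ihL' x _ _ hp (hq.left hl) hg0 hx
      · rcases add_ne_zero_cases hi.1 with hpi | hqi
        · have hj := juxt_right_p hp hq h1 hpi
          have hl := hj.1.1 hi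
          obtain ⟨x, hx⟩ := g3 i hl
          refine ⟨Sum.inl x, ?_⟩
          rw [hj.2]
          exact ihR x (mk γ δ L' R') _ _ (hp.right hl) hq hx hh0
        · have hj := juxt_right_q hp hq h2 hqi
          have hl := hj.1.1 hi
          obtain ⟨x, hx⟩ := k3 i hl
          refine ⟨Sum.inr x, ?_⟩
          rw [hj.2]
          exact ihR' x _ _ hp (hq.right hl) hg0 hx
      · rintro (x | x)
        · obtain ⟨i, hl, hx⟩ := g4 x
          have hj := juxt_right_p hp hq h1 hl.1
          refine ⟨i, hj.1.2 hl, ?_⟩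
          rw [hj.2]
          exact ihR x (mk γ δ L' R') _ _ (hp.right hl) hq hx hh0
        · obtain ⟨i, hl, hx⟩ := k4 x
          have hj := juxt_right_q hp hq h2 hl.1
          refine ⟨i, hj.1.2 hl, ?_⟩
          rw [hj.2]
          exact ihR' x _ _ hp (hq.right hl) hg0 hx

/-! ### Translation -/

/-- the position `x` moved `t` pots to the right -/
def shift (t : ℤ) (x : ℤ → ℕ) : ℤ → ℕ := fun j => x (j - t)

theorem legalLeft_shift (t : ℤ) (x : ℤ → ℕ) (i : ℤ) :
    LegalLeft (shift t x) i ↔ LegalLeft x (i - t) := by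
  unfold LegalLeft shift
  rw [show i + (x (i - t) : ℤ) - t = i - t + x (i - t) by ring]

theorem legalRight_shift (t : ℤ) (x : ℤ → ℕ) (i : ℤ) :
    LegalRight (shift t x) i ↔ LegalRight x (i - t) := by
  unfold LegalRight shift
  rw [show i - (x (i - t) : ℤ) - t = i - t - x (i - t) by ring]

theorem sowLeft_shift (t : ℤ) (x : ℤ → ℕ) (i : ℤ) :
    sowLeft (shift t x) i = shift t (sowLeft x (i - t)) := by
  funext j
  unfold sowLeft shift
  have h1 : (j = i) ↔ (j - t = i - t) := by omega
  have h2 : (i < j ∧ j ≤ i + (x (i - t) : ℤ)) ↔ (i - t < j - t ∧ j - t ≤ i - t + (x (i - t) : ℤ)) := by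
    omega
  simp only [h1, h2]

theorem sowRight_shift (t : ℤ) (x : ℤ → ℕ) (i : ℤ) :
    sowRight (shift t x) i = shift t (sowRight x (i - t)) := by
  funext j
  unfold sowRight shift
  have h1 : (j = i) ↔ (j - t = i - t) := by omega
  have h2 : (i - (x (i - t) : ℤ) ≤ j ∧ j < i) ↔ (i - t - (x (i - t) : ℤ) ≤ j - t ∧ j - t < i - t) := by
    omega
  simp only [h1, h2]

theorem form_shift (t : ℤ) (g : Game) : ∀ x : ℤ → ℕ, Form g x → Form g (shift t x) := by
  induction g with
  | mk α β L R ihL ihR =>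
    intro x hg
    obtain ⟨⟨g1, g2⟩, ⟨g3, g4⟩⟩ := hg
    refine ⟨⟨fun i hi => ?_, fun k => ?_⟩, ⟨fun i hi => ?_, fun k => ?_⟩⟩
    · obtain ⟨k, hk⟩ := g1 _ ((legalLeft_shift t x i).1 hi)
      exact ⟨k, by rw [sowLeft_shift]; exact ihL k _ hk⟩
    · obtain ⟨i, hi, hk⟩ := g2 k
      have e : i + t - t = i := by ring
      refine ⟨i + t, (legalLeft_shift t x _).2 (by rw [e]; exact hi), ?_⟩
      rw [sowLeft_shift, e]
      exact ihL k _ hk
    · obtain ⟨k, hk⟩ := g3 _ ((legalRight_shift t x i).1 hi)
      exact ⟨k, by rw [sowRight_shift]; exact ihR k _ hk⟩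
    · obtain ⟨i, hi, hk⟩ := g4 k
      have e : i + t - t = i := by ring
      refine ⟨i + t, (legalRight_shift t x _).2 (by rw [e]; exact hi), ?_⟩
      rw [sowRight_shift, e]
      exact ihR k _ hk

theorem Inv.shift {a b : ℤ} {N : ℕ} {x : ℤ → ℕ} (h : Inv a b N x) (t : ℤ) :
    Inv (a + t) (b + t) N (shift t x) := by
  refine ⟨fun i hi => ?_, ?_⟩
  · have := h.1 (i - t) hi
    omega
  · have e : ∑ i ∈ Finset.Icc (a + t) (b + t), Sowing.shift t x i =
        ∑ i ∈ Finset.Icc a b, x i := by
      refine Finset.sum_nbij' (fun i => i - t) (fun i => i + t) ?_ ?_ ?_ ?_ ?_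
      · intro i hi
        rw [Finset.mem_Icc] at hi ⊢
        omega
      · intro i hi
        rw [Finset.mem_Icc] at hi ⊢
        omega
      · intro i _
        ring
      · intro i _
        ring
      · intro i _
        rfl
    rw [e]
    exact h.2

theorem isPosition_of_inv {a b : ℤ} {N : ℕ} {x : ℤ → ℕ} (h : Inv a b N x) : IsPosition x :=
  (Set.finite_Icc a b).subset fun i hi => Set.mem_Icc.2 (h.1 i hi)

/-- The values of Sowing positions are closed under addition. -/
theorem hasValue_add {p q : ℤ → ℕ} {v w : Game} (hp : IsPosition p) (hq : IsPosition q)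
    (hv : HasValue p v) (hw : HasValue q w) :
    ∃ r, IsPosition r ∧ HasValue r (add v w) := by
  obtain ⟨a, b, N, ha⟩ := exists_inv hp
  obtain ⟨c, d, M, hc⟩ := exists_inv hq
  obtain ⟨g, hg, hgv⟩ := hv
  obtain ⟨h, hh, hhw⟩ := hw
  have hs := hc.shift (b + N + M + 1 - c)
  have hf := form_add (a := a) (b := b) (c := c + (b + N + M + 1 - c))
    (d := d + (b + N + M + 1 - c)) (N := N) (M := M) (by omega) (by omega) g h p
    (shift (b + N + M + 1 - c) q) ha hs hg (form_shift _ h q hh)
  refine ⟨_, ?_, ⟨_, hf, add_congr hgv hhw⟩⟩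
  refine (hp.union (isPosition_of_inv hs)).subset fun i hi => ?_
  rcases add_ne_zero_cases hi with h' | h'
  · exact Or.inl h'
  · exact Or.inr h'

/-! ### Some standard games -/

/-- The game `0`. -/
def zero : Game := mk Empty Empty Empty.elim Empty.elim

/-- The nimber `*n`: its options, for both players, are `*m` with `m < n`. -/
def nim (n : ℕ) : Game :=
  mk (Fin n) (Fin n) (fun i => nim i.1) (fun i => nim i.1)
termination_by n
decreasing_by all_goals exact i.2

/-- `* = {0 | 0}`. -/
def star : Game := mk Unit Unit (fun _ => zero) (fun _ => zero)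

/-- `↑ = {0 | *}`. -/
def up : Game := mk Unit Unit (fun _ => zero) (fun _ => star)

/-- The sum of `n` copies of `G`. -/
def copies : ℕ → Game → Game
  | 0, _ => zero
  | n + 1, g => add (copies n g) g

/-- The integer `-n`: `-0 = 0` and `-(n+1) = { | -n}`. -/
def negInt : ℕ → Game
  | 0 => zero
  | n + 1 => mk Empty Unit Empty.elim (fun _ => negInt n)

/-- Tiny-`n`, that is `{0 || 0 | -n}`. -/
def tiny (n : ℕ) : Game :=
  mk Unit Unit (fun _ => zero) (fun _ => mk Unit Unit (fun _ => zero) (fun _ => negInt n))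

theorem form_zero {x : ℤ → ℕ} (h1 : ∀ i, ¬ LegalLeft x i) (h2 : ∀ i, ¬ LegalRight x i) :
    Form zero x :=
  ⟨⟨fun i hi => absurd hi (h1 i), fun a => a.elim⟩, ⟨fun i hi => absurd hi (h2 i), fun a => a.elim⟩⟩

theorem form_single {x : ℤ → ℕ} {g h : Game} (i k : ℤ) (hi : LegalLeft x i) (hk : LegalRight x k)
    (hi' : ∀ j, LegalLeft x j → j = i) (hk' : ∀ j, LegalRight x j → j = k)
    (hg : Form g (sowLeft x i)) (hh : Form h (sowRight x k)) :
    Form (mk Unit Unit (fun _ => g) (fun _ => h)) x :=
  ⟨⟨fun j hj => ⟨(), by rw [hi' j hj]; exact hg⟩, fun _ => ⟨i, hi, hg⟩⟩,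
    ⟨fun j hj => ⟨(), by rw [hk' j hj]; exact hh⟩, fun _ => ⟨k, hk, hh⟩⟩⟩

theorem eqv_single {g g' h h' : Game} (hg : Eqv g g') (hh : Eqv h h') :
    Eqv (mk Unit Unit (fun _ => g) (fun _ => h)) (mk Unit Unit (fun _ => g') (fun _ => h')) := by
  constructor
  · rw [le_mk]
    exact ⟨fun _ => lf_of_le_left () hg.1, fun _ => lf_of_right_le () hh.1⟩
  · rw [le_mk]
    exact ⟨fun _ => lf_of_le_left () hg.2, fun _ => lf_of_right_le () hh.2⟩

/-! ### `n·↑` -/

/-- the row `a b c d` in pots `0, 1, 2, 3` -/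
def row4 (a b c d : ℕ) : ℤ → ℕ := fun j =>
  if j = 0 then a else if j = 1 then b else if j = 2 then c else if j = 3 then d else 0

theorem row4_ne {a b c d : ℕ} {i : ℤ} (h : row4 a b c d i ≠ 0) : i = 0 ∨ i = 1 ∨ i = 2 ∨ i = 3 := by
  unfold row4 at h
  split_ifs at h <;> omega

theorem form_up : Form up (row4 1 3 0 3) := by
  refine form_single 0 3 ?_ ?_ ?_ ?_ ?_ ?_
  · constructor <;> norm_num [row4]
  · constructor <;> norm_num [row4]
  · intro j hj
    rcases row4_ne hj.1 with h | h | h | h <;> subst h <;>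
      first
        | rfl
        | (exfalso; obtain ⟨h1, h2⟩ := hj; revert h1 h2; norm_num [row4])
  · intro j hj
    rcases row4_ne hj.1 with h | h | h | h <;> subst h <;>
      first
        | rfl
        | (exfalso; obtain ⟨h1, h2⟩ := hj; revert h1 h2; norm_num [row4])
  · have e : sowLeft (row4 1 3 0 3) 0 = row4 0 4 0 3 := by
      funext j
      unfold sowLeft row4
      norm_num
      split_ifs <;> omega
    rw [e]
    refine form_zero ?_ ?_ <;> intro i hi <;> obtain ⟨h1, h2⟩ := hi <;>
      rcases row4_ne h1 with h | h | h | h <;> subst h <;> revert h1 h2 <;>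
        norm_num [row4]
  · have e : sowRight (row4 1 3 0 3) 3 = row4 2 4 1 0 := by
      funext j
      unfold sowRight row4
      norm_num
      split_ifs <;> omega
    rw [e]
    refine form_single 0 2 ?_ ?_ ?_ ?_ ?_ ?_
    · constructor <;> norm_num [row4]
    · constructor <;> norm_num [row4]
    · intro j hj
      rcases row4_ne hj.1 with h | h | h | h <;> subst h <;>
        first
          | rfl
          | (exfalso; obtain ⟨h1, h2⟩ := hj; revert h1 h2; norm_num [row4])
    · intro j hj
      rcases row4_ne hj.1 with h | h | h | h <;> subst h <;>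
        first
          | rfl
          | (exfalso; obtain ⟨h1, h2⟩ := hj; revert h1 h2; norm_num [row4])
    · have e : sowLeft (row4 2 4 1 0) 0 = row4 0 5 2 0 := by
        funext j
        unfold sowLeft row4
        norm_num
        split_ifs <;> omega
      rw [e]
      refine form_zero ?_ ?_ <;> intro i hi <;> obtain ⟨h1, h2⟩ := hi <;>
        rcases row4_ne h1 with h | h | h | h <;> subst h <;> revert h1 h2 <;>
        norm_num [row4]
    · have e : sowRight (row4 2 4 1 0) 2 = row4 2 5 0 0 := by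
        funext j
        unfold sowRight row4
        norm_num
        split_ifs <;> omega
      rw [e]
      refine form_zero ?_ ?_ <;> intro i hi <;> obtain ⟨h1, h2⟩ := hi <;>
        rcases row4_ne h1 with h | h | h | h <;> subst h <;> revert h1 h2 <;>
        norm_num [row4]

/-- `n` copies of `1303`, the `k`-th copy (`k = 0, …, n-1`) placed in the pots
`24 k², …, 24 k² + 3`. -/
def upPos : ℕ → ℤ → ℕ
  | 0 => fun _ => 0
  | n + 1 => fun j => upPos n j + row4 1 3 0 3 (j - 24 * (n : ℤ) ^ 2)

theorem Inv.mono {a b a' b' : ℤ} {N N' : ℕ} {x : ℤ → ℕ} (h : Inv a b N x) (ha : a' ≤ a)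
    (hb : b ≤ b') (hN : N ≤ N') : Inv a' b' N' x := by
  refine ⟨fun i hi => ?_, ?_⟩
  · have := h.1 i hi
    omega
  · have e : ∑ i ∈ Finset.Icc a b, x i = ∑ i ∈ Finset.Icc a' b', x i := by
      refine Finset.sum_subset (Finset.Icc_subset_Icc ha hb) ?_
      intro i _ hi
      by_contra hne
      exact hi (Finset.mem_Icc.2 (h.1 i hne))
    rw [← e]
    exact _root_.le_trans h.2 hN

theorem inv_row4 (a b c d : ℕ) : Inv 0 3 (a + b + c + d) (row4 a b c d) := by
  refine ⟨fun i hi => ?_, ?_⟩
  · rcases row4_ne hi with h | h | h | h <;> omega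
  · have e : Finset.Icc (0 : ℤ) 3 = {0, 1, 2, 3} := by decide
    rw [e]
    rw [Finset.sum_insert (by decide), Finset.sum_insert (by decide), Finset.sum_insert (by decide),
      Finset.sum_singleton]
    norm_num [row4]
    omega

theorem Inv.juxt {a b : ℤ} {N M : ℕ} {p q : ℤ → ℕ} (hp : Inv a b N p) (hq : Inv a b M q) :
    Inv a b (N + M) (fun j => p j + q j) := by
  refine ⟨fun i hi => ?_, ?_⟩
  · rcases add_ne_zero_cases hi with h | h
    · exact hp.1 i h
    · exact hq.1 i h
  · rw [Finset.sum_add_distrib]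
    exact Nat.add_le_add hp.2 hq.2

theorem upPos_main (n : ℕ) :
    Inv 0 (24 * (n : ℤ) ^ 2 - 7 * n - 8) (7 * n) (upPos n) ∧ Form (copies n up) (upPos n) := by
  induction n with
  | zero =>
    refine ⟨⟨fun i hi => absurd rfl hi, ?_⟩, form_zero (fun i hi => hi.1 rfl) fun i hi => hi.1 rfl⟩
    simp [upPos]
  | succ n ih =>
    have hr := (inv_row4 1 3 0 3).shift (24 * (n : ℤ) ^ 2)
    have hn : (0 : ℤ) ≤ n := Int.natCast_nonneg n
    have hn2 : (0 : ℤ) ≤ (n : ℤ) ^ 2 := by positivity
    have e1 : ((n + 1 : ℕ) : ℤ) ^ 2 = (n : ℤ) ^ 2 + 2 * n + 1 := by push_cast; ring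
    constructor
    · have h1 : Inv 0 (24 * ((n + 1 : ℕ) : ℤ) ^ 2 - 7 * ((n + 1 : ℕ) : ℤ) - 8) (7 * n) (upPos n) :=
        ih.1.mono (_root_.le_refl _) (by rw [e1]; push_cast; linarith) (_root_.le_refl _)
      have h2 : Inv 0 (24 * ((n + 1 : ℕ) : ℤ) ^ 2 - 7 * ((n + 1 : ℕ) : ℤ) - 8) 7
          (shift (24 * (n : ℤ) ^ 2) (row4 1 3 0 3)) :=
        hr.mono (by linarith) (by rw [e1]; push_cast; linarith) (by norm_num)
      have h3 := h1.juxt h2
      have e2 : 7 * (n + 1) = 7 * n + 7 := by ring
      rw [e2]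
      exact h3
    · exact form_add (a := 0) (b := 24 * (n : ℤ) ^ 2 - 7 * n - 8) (c := 0 + 24 * (n : ℤ) ^ 2)
        (d := 3 + 24 * (n : ℤ) ^ 2) (N := 7 * n) (M := 7) (by push_cast; linarith)
        (by push_cast; linarith) _ _ _ _ ih.1
        (hr.mono (_root_.le_refl _) (_root_.le_refl _) (by norm_num)) ih.2
        (form_shift _ _ _ form_up)

theorem upPos_value (n : ℕ) : IsPosition (upPos n) ∧ HasValue (upPos n) (copies n up) :=
  ⟨isPosition_of_inv (upPos_main n).1, ⟨_, (upPos_main n).2, Eqv.refl _⟩⟩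

/-! ### Tiny-`n` -/

/-- the middle positions `F (01)^a 0 2 (10)^i F F` (with `a + 1 + i = n` and full pots `F`) -/
def IsS (n a : ℕ) (x : ℤ → ℕ) : Prop :=
  (2 * n + 4 ≤ x 0 ∧ 2 * n + 4 ≤ x (2 * n + 1) ∧ 2 * n + 4 ≤ x (2 * n + 2)) ∧
  (∀ j, (j < 0 ∨ 2 * (n : ℤ) + 2 < j) → x j = 0) ∧
  ∀ j, 0 < j → j ≤ 2 * (n : ℤ) → x j =
    if j % 2 = 0 then (if j ≤ 2 * (a : ℤ) then 1 else if j = 2 * (a : ℤ) + 2 then 2 else 0)
    else (if 2 * (a : ℤ) + 2 < j then 1 else 0)

/-- the positions `F (10)^n F F` -/
def IsE (n : ℕ) (x : ℤ → ℕ) : Prop :=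
  (2 * n + 4 ≤ x 0 ∧ 2 * n + 4 ≤ x (2 * n + 1) ∧ 2 * n + 4 ≤ x (2 * n + 2)) ∧
  (∀ j, (j < 0 ∨ 2 * (n : ℤ) + 2 < j) → x j = 0) ∧
  ∀ j, 0 < j → j ≤ 2 * (n : ℤ) → x j = if j % 2 = 0 then 0 else 1

theorem IsS.left_legal {n a : ℕ} {x : ℤ → ℕ} (h : IsS n a x) (ha : a < n) {i : ℤ}
    (hi : LegalLeft x i) : a + 1 = n ∧ i = 2 * n := by
  obtain ⟨⟨h0, h1, h2⟩, ho, hm⟩ := h
  obtain ⟨hi1, hi2⟩ := hi
  by_contra hcon
  have hr : 0 ≤ i ∧ i ≤ 2 * (n : ℤ) + 2 := by
    by_contra hh
    exact hi1 (ho i (by omega))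
  apply hi2
  by_cases c0 : i = 0
  · subst c0
    exact ho _ (by omega)
  by_cases c1 : i = 2 * n + 1
  · subst c1
    exact ho _ (by omega)
  by_cases c2 : i = 2 * n + 2
  · subst c2
    exact ho _ (by omega)
  have hmi := hm i (by omega) (by omega)
  split_ifs at hmi with d1 d2 d3 d4
  · rw [hmi]
    have hmj := hm (i + ((1 : ℕ) : ℤ)) (by push_cast; omega) (by push_cast; omega)
    rw [hmj, if_neg (by push_cast; omega), if_neg (by push_cast; omega)]
  · rw [hmi]
    have hmj := hm (i + ((2 : ℕ) : ℤ)) (by push_cast; omega) (by push_cast; omega)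
    rw [hmj, if_pos (by push_cast; omega), if_neg (by push_cast; omega),
      if_neg (by push_cast; omega)]
  · exact absurd hmi hi1
  · rw [hmi]
    have hmj := hm (i + ((1 : ℕ) : ℤ)) (by push_cast; omega) (by push_cast; omega)
    rw [hmj, if_pos (by push_cast; omega), if_neg (by push_cast; omega),
      if_neg (by push_cast; omega)]
  · exact absurd hmi hi1

theorem IsS.right_legal {n a : ℕ} {x : ℤ → ℕ} (h : IsS n a x) (ha : a < n) {i : ℤ}
    (hi : LegalRight x i) : i = 2 * a + 2 ∨ (i = 2 * a + 3 ∧ a + 1 < n) := by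
  obtain ⟨⟨h0, h1, h2⟩, ho, hm⟩ := h
  obtain ⟨hi1, hi2⟩ := hi
  by_contra hcon
  have hr : 0 ≤ i ∧ i ≤ 2 * (n : ℤ) + 2 := by
    by_contra hh
    exact hi1 (ho i (by omega))
  apply hi2
  by_cases c0 : i = 0
  · subst c0
    exact ho _ (by omega)
  by_cases c1 : i = 2 * n + 1
  · subst c1
    exact ho _ (by omega)
  by_cases c2 : i = 2 * n + 2
  · subst c2
    exact ho _ (by omega)
  have hmi := hm i (by omega) (by omega)
  split_ifs at hmi with d1 d2 d3 d4
  · rw [hmi]
    have hmj := hm (i - ((1 : ℕ) : ℤ)) (by push_cast; omega) (by push_cast; omega)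
    rw [hmj, if_neg (by push_cast; omega), if_neg (by push_cast; omega)]
  · omega
  · exact absurd hmi hi1
  · rw [hmi]
    have hmj := hm (i - ((1 : ℕ) : ℤ)) (by push_cast; omega) (by push_cast; omega)
    rw [hmj, if_pos (by push_cast; omega), if_neg (by push_cast; omega),
      if_neg (by push_cast; omega)]
  · exact absurd hmi hi1

theorem IsS.val2 {n a : ℕ} {x : ℤ → ℕ} (h : IsS n a x) (ha : a < n) :
    x (2 * (a : ℤ) + 2) = 2 := by
  rw [h.2.2 _ (by omega) (by omega), if_pos (by omega), if_neg (by omega), if_pos rfl]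

theorem IsS.right_step {n a : ℕ} {x : ℤ → ℕ} (h : IsS n (a + 1) x) (ha : a + 1 < n) :
    LegalRight x (2 * ((a + 1 : ℕ) : ℤ) + 2) ∧
      IsS n a (sowRight x (2 * ((a + 1 : ℕ) : ℤ) + 2)) := by
  have hv := h.val2 ha
  obtain ⟨⟨h0, h1, h2⟩, ho, hm⟩ := h
  constructor
  · refine ⟨by rw [hv]; norm_num, ?_⟩
    rw [hv, hm _ (by push_cast; omega) (by push_cast; omega), if_pos (by push_cast; omega),
      if_pos (by push_cast; omega)]
    norm_num
  · refine ⟨⟨?_, ?_, ?_⟩, ?_, ?_⟩
    · unfold sowRight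
      rw [if_neg (by push_cast; omega), hv, if_neg (by push_cast; omega)]
      exact h0
    · unfold sowRight
      rw [if_neg (by push_cast; omega), hv, if_neg (by push_cast; omega)]
      exact h1
    · unfold sowRight
      rw [if_neg (by push_cast; omega), hv, if_neg (by push_cast; omega)]
      exact h2
    · intro j hj
      unfold sowRight
      rw [if_neg (by push_cast; omega), hv, if_neg (by push_cast; omega)]
      exact ho j hj
    · intro j hj1 hj2
      have hj := hm j hj1 hj2
      unfold sowRight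
      rw [hv, hj]
      push_cast
      split_ifs <;> omega

theorem IsS.right_last {n : ℕ} {x : ℤ → ℕ} (h : IsS n 0 x) (hn : 0 < n) :
    LegalRight x (2 * ((0 : ℕ) : ℤ) + 2) ∧ IsE n (sowRight x (2 * ((0 : ℕ) : ℤ) + 2)) := by
  have hv := h.val2 hn
  obtain ⟨⟨h0, h1, h2⟩, ho, hm⟩ := h
  constructor
  · refine ⟨by rw [hv]; norm_num, ?_⟩
    rw [hv]
    norm_num
    omega
  · refine ⟨⟨?_, ?_, ?_⟩, ?_, ?_⟩
    · unfold sowRight
      rw [if_neg (by norm_num), hv, if_pos (by norm_num)]
      omega
    · unfold sowRight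
      rw [if_neg (by push_cast; omega), hv, if_neg (by push_cast; omega)]
      exact h1
    · unfold sowRight
      rw [if_neg (by push_cast; omega), hv, if_neg (by push_cast; omega)]
      exact h2
    · intro j hj
      unfold sowRight
      rw [if_neg (by push_cast; omega), hv, if_neg (by push_cast; omega)]
      exact ho j hj
    · intro j hj1 hj2
      have hj := hm j hj1 hj2
      unfold sowRight
      rw [hv, hj]
      push_cast
      split_ifs <;> omega

theorem IsS.right_other {n a : ℕ} {x : ℤ → ℕ} (h : IsS n a x) (ha : a + 1 < n) :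
    ∀ k, ¬ LegalRight (sowRight x (2 * (a : ℤ) + 3)) k := by
  obtain ⟨⟨h0, h1, h2⟩, ho, hm⟩ := h
  have hv : x (2 * (a : ℤ) + 3) = 1 := by
    rw [hm _ (by omega) (by omega), if_neg (by omega), if_pos (by omega)]
  have hy0 : 2 * n + 4 ≤ sowRight x (2 * (a : ℤ) + 3) 0 := by
    unfold sowRight
    rw [if_neg (by omega), hv, if_neg (by push_cast; omega)]
    exact h0
  have hy1 : 2 * n + 4 ≤ sowRight x (2 * (a : ℤ) + 3) (2 * (n : ℤ) + 1) := by
    unfold sowRight
    rw [if_neg (by omega), hv, if_neg (by push_cast; omega)]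
    exact h1
  have hy2 : 2 * n + 4 ≤ sowRight x (2 * (a : ℤ) + 3) (2 * (n : ℤ) + 2) := by
    unfold sowRight
    rw [if_neg (by omega), hv, if_neg (by push_cast; omega)]
    exact h2
  have hyo : ∀ j, (j < 0 ∨ 2 * (n : ℤ) + 2 < j) → sowRight x (2 * (a : ℤ) + 3) j = 0 := by
    intro j hj
    unfold sowRight
    rw [if_neg (by omega), hv, if_neg (by push_cast; omega)]
    exact ho j hj
  have hym : ∀ j, 0 < j → j ≤ 2 * (n : ℤ) → sowRight x (2 * (a : ℤ) + 3) j =
      if j % 2 = 0 then (if j ≤ 2 * (a : ℤ) then 1 else if j = 2 * (a : ℤ) + 2 then 3 else 0)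
      else (if 2 * (a : ℤ) + 3 < j then 1 else 0) := by
    intro j hj1 hj2
    have hj := hm j hj1 hj2
    unfold sowRight
    rw [hv, hj]
    push_cast
    split_ifs <;> omega
  generalize sowRight x (2 * (a : ℤ) + 3) = y at hy0 hy1 hy2 hyo hym ⊢
  intro i hi
  obtain ⟨hi1, hi2⟩ := hi
  have hr : 0 ≤ i ∧ i ≤ 2 * (n : ℤ) + 2 := by
    by_contra hh
    exact hi1 (hyo i (by omega))
  apply hi2
  by_cases c0 : i = 0
  · subst c0
    exact hyo _ (by omega)
  by_cases c1 : i = 2 * n + 1
  · subst c1
    exact hyo _ (by omega)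
  by_cases c2 : i = 2 * n + 2
  · subst c2
    exact hyo _ (by omega)
  have hmi := hym i (by omega) (by omega)
  split_ifs at hmi with d1 d2 d3 d4
  · rw [hmi]
    have hmj := hym (i - ((1 : ℕ) : ℤ)) (by push_cast; omega) (by push_cast; omega)
    rw [hmj, if_neg (by push_cast; omega), if_neg (by push_cast; omega)]
  · rw [hmi]
    by_cases ha0 : a = 0
    · exact hyo _ (by push_cast; omega)
    · have hmj := hym (i - ((3 : ℕ) : ℤ)) (by push_cast; omega) (by push_cast; omega)
      rw [hmj, if_neg (by push_cast; omega), if_neg (by push_cast; omega)]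
  · exact absurd hmi hi1
  · rw [hmi]
    have hmj := hym (i - ((1 : ℕ) : ℤ)) (by push_cast; omega) (by push_cast; omega)
    rw [hmj, if_pos (by push_cast; omega), if_neg (by push_cast; omega),
      if_neg (by push_cast; omega)]
  · exact absurd hmi hi1

theorem IsE.form {n : ℕ} {x : ℤ → ℕ} (h : IsE n x) (hn : 0 < n) : Form (negInt 1) x := by
  obtain ⟨⟨h0, h1, h2⟩, ho, hm⟩ := h
  have hx1 : x 1 = 1 := by
    rw [hm 1 (by omega) (by omega), if_neg (by omega)]
  have hleg : LegalRight x 1 := by
    refine ⟨by rw [hx1]; norm_num, ?_⟩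
    rw [hx1]
    norm_num
    omega
  have hnl : ∀ i, ¬ LegalLeft x i := by
    intro i hi
    obtain ⟨hi1, hi2⟩ := hi
    have hr : 0 ≤ i ∧ i ≤ 2 * (n : ℤ) + 2 := by
      by_contra hh
      exact hi1 (ho i (by omega))
    apply hi2
    by_cases c0 : i = 0
    · subst c0
      exact ho _ (by omega)
    by_cases c1 : i = 2 * n + 1
    · subst c1
      exact ho _ (by omega)
    by_cases c2 : i = 2 * n + 2
    · subst c2
      exact ho _ (by omega)
    have hmi := hm i (by omega) (by omega)
    split_ifs at hmi with d1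
    · exact absurd hmi hi1
    · rw [hmi]
      rw [hm (i + ((1 : ℕ) : ℤ)) (by push_cast; omega) (by push_cast; omega),
        if_pos (by push_cast; omega)]
  have hrl : ∀ i, LegalRight x i → i = 1 := by
    intro i hi
    by_contra hcon
    obtain ⟨hi1, hi2⟩ := hi
    have hr : 0 ≤ i ∧ i ≤ 2 * (n : ℤ) + 2 := by
      by_contra hh
      exact hi1 (ho i (by omega))
    apply hi2
    by_cases c0 : i = 0
    · subst c0
      exact ho _ (by omega)
    by_cases c1 : i = 2 * n + 1
    · subst c1
      exact ho _ (by omega)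
    by_cases c2 : i = 2 * n + 2
    · subst c2
      exact ho _ (by omega)
    have hmi := hm i (by omega) (by omega)
    split_ifs at hmi with d1
    · exact absurd hmi hi1
    · rw [hmi]
      rw [hm (i - ((1 : ℕ) : ℤ)) (by push_cast; omega) (by push_cast; omega),
        if_pos (by push_cast; omega)]
  have hz : Form zero (sowRight x 1) := by
    have hy0 : 2 * n + 4 ≤ sowRight x 1 0 := by
      unfold sowRight
      rw [if_neg (by omega), hx1, if_pos (by norm_num)]
      omega
    have hy1 : 2 * n + 4 ≤ sowRight x 1 (2 * (n : ℤ) + 1) := by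
      unfold sowRight
      rw [if_neg (by omega), hx1, if_neg (by push_cast; omega)]
      exact h1
    have hy2 : 2 * n + 4 ≤ sowRight x 1 (2 * (n : ℤ) + 2) := by
      unfold sowRight
      rw [if_neg (by omega), hx1, if_neg (by push_cast; omega)]
      exact h2
    have hyo : ∀ j, (j < 0 ∨ 2 * (n : ℤ) + 2 < j) → sowRight x 1 j = 0 := by
      intro j hj
      unfold sowRight
      rw [if_neg (by omega), hx1, if_neg (by push_cast; omega)]
      exact ho j hj
    have hym : ∀ j, 0 < j → j ≤ 2 * (n : ℤ) → sowRight x 1 j =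
        if j % 2 = 0 then 0 else if j = 1 then 0 else 1 := by
      intro j hj1 hj2
      have hj := hm j hj1 hj2
      unfold sowRight
      rw [hx1, hj]
      push_cast
      split_ifs <;> omega
    generalize sowRight x 1 = y at hy0 hy1 hy2 hyo hym ⊢
    apply form_zero
    · intro i hi
      obtain ⟨hi1, hi2⟩ := hi
      have hr : 0 ≤ i ∧ i ≤ 2 * (n : ℤ) + 2 := by
        by_contra hh
        exact hi1 (hyo i (by omega))
      apply hi2
      by_cases c0 : i = 0
      · subst c0
        exact hyo _ (by omega)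
      by_cases c1 : i = 2 * n + 1
      · subst c1
        exact hyo _ (by omega)
      by_cases c2 : i = 2 * n + 2
      · subst c2
        exact hyo _ (by omega)
      have hmi := hym i (by omega) (by omega)
      split_ifs at hmi with d1
      · exact absurd hmi hi1
      · exact absurd hmi hi1
      · rw [hmi]
        rw [hym (i + ((1 : ℕ) : ℤ)) (by push_cast; omega) (by push_cast; omega),
          if_pos (by push_cast; omega)]
    · intro i hi
      obtain ⟨hi1, hi2⟩ := hi
      have hr : 0 ≤ i ∧ i ≤ 2 * (n : ℤ) + 2 := by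
        by_contra hh
        exact hi1 (hyo i (by omega))
      apply hi2
      by_cases c0 : i = 0
      · subst c0
        exact hyo _ (by omega)
      by_cases c1 : i = 2 * n + 1
      · subst c1
        exact hyo _ (by omega)
      by_cases c2 : i = 2 * n + 2
      · subst c2
        exact hyo _ (by omega)
      have hmi := hym i (by omega) (by omega)
      split_ifs at hmi with d1
      · exact absurd hmi hi1
      · exact absurd hmi hi1
      · rw [hmi]
        rw [hym (i - ((1 : ℕ) : ℤ)) (by push_cast; omega) (by push_cast; omega),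
          if_pos (by push_cast; omega)]
  exact ⟨⟨fun i hi => absurd hi (hnl i), fun a => a.elim⟩,
    ⟨fun i hi => ⟨(), by rw [hrl i hi]; exact hz⟩, fun _ => ⟨1, hleg, hz⟩⟩⟩

theorem IsS.isPosition {n a : ℕ} {x : ℤ → ℕ} (h : IsS n a x) : IsPosition x := by
  refine (Set.finite_Icc (0 : ℤ) (2 * n + 2)).subset fun i hi => ?_
  rw [Set.mem_Icc]
  by_contra hc
  exact hi (h.2.1 i (by omega))

theorem le_negInt (m : ℕ) {α β : Type} {L : α → Game} {R : β → Game} (hβ : β → False) :
    Le (negInt m) (mk α β L R) := by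
  cases m with
  | zero => exact (le_mk _ _ _ _).2 ⟨fun i => i.elim, fun j => (hβ j).elim⟩
  | succ m => exact (le_mk _ _ _ _).2 ⟨fun i => i.elim, fun j => (hβ j).elim⟩

theorem IsS.value {n : ℕ} (a : ℕ) : ∀ x : ℤ → ℕ, IsS n a x → a + 1 < n →
    ∃ g, Form g x ∧ Eqv g (negInt (a + 2)) := by
  induction a with
  | zero =>
    intro x h ha
    obtain ⟨g, hg⟩ := exists_form h.isPosition
    refine ⟨g, hg, ?_⟩
    have hs := h.right_last (by omega)
    have hE := hs.2.form (by omega)
    cases g with
    | mk α β L R =>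
      obtain ⟨⟨g1, g2⟩, ⟨g3, g4⟩⟩ := hg
      constructor
      · refine (le_mk _ _ _ _).2 ⟨fun i => ?_, fun j => ?_⟩
        · obtain ⟨k, hk, _⟩ := g2 i
          have := (h.left_legal (by omega) hk).1
          omega
        · obtain ⟨b, hb⟩ := g3 _ hs.1
          exact lf_of_right_le b (form_le _ _ _ hb hE).1
      · refine (le_mk _ _ _ _).2 ⟨fun i => i.elim, fun b => ?_⟩
        obtain ⟨k, hk, hf⟩ := g4 b
        rcases h.right_legal (by omega) hk with hk' | ⟨hk', _⟩
        · rw [hk'] at hf
          exact lf_of_right_le () (form_le _ _ _ hE hf).1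
        · rw [hk'] at hf
          have hno := h.right_other ha
          generalize R b = r at hf ⊢
          cases r with
          | mk γ δ L' R' =>
            refine lf_of_right_le () (le_negInt 1 fun d => ?_)
            obtain ⟨m, hm, _⟩ := hf.2.2 d
            exact hno m hm
  | succ a ih =>
    intro x h ha
    obtain ⟨g, hg⟩ := exists_form h.isPosition
    refine ⟨g, hg, ?_⟩
    have hs := h.right_step (by omega)
    obtain ⟨g', hg', hv⟩ := ih _ hs.2 (by omega)
    cases g with
    | mk α β L R =>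
      obtain ⟨⟨g1, g2⟩, ⟨g3, g4⟩⟩ := hg
      constructor
      · refine (le_mk _ _ _ _).2 ⟨fun i => ?_, fun j => ?_⟩
        · obtain ⟨k, hk, _⟩ := g2 i
          have := (h.left_legal (by omega) hk).1
          omega
        · obtain ⟨b, hb⟩ := g3 _ hs.1
          exact lf_of_right_le b (le_trans (form_le _ _ _ hb hg').1 hv.1)
      · refine (le_mk _ _ _ _).2 ⟨fun i => i.elim, fun b => ?_⟩
        obtain ⟨k, hk, hf⟩ := g4 b
        rcases h.right_legal (by omega) hk with hk' | ⟨hk', _⟩
        · rw [hk'] at hf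
          exact lf_of_right_le () (le_trans hv.2 (form_le _ _ _ hg' hf).1)
        · rw [hk'] at hf
          have hno := h.right_other ha
          generalize R b = r at hf ⊢
          cases r with
          | mk γ δ L' R' =>
            refine lf_of_right_le () (le_negInt (a + 2) fun d => ?_)
            obtain ⟨m, hm, _⟩ := hf.2.2 d
            exact hno m hm

/-- the position `F (01)^{n-1} 0 2 F F` has value `{0 | -n}` -/
theorem IsS.value_top {n : ℕ} {x : ℤ → ℕ} (h : IsS (n + 1) n x) :
    ∃ g, Form (mk Unit Unit (fun _ => zero) (fun _ => g)) x ∧ Eqv g (negInt (n + 1)) := by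
  have hv := h.val2 (Nat.lt_succ_self n)
  have hR : ∃ g, LegalRight x (2 * (n : ℤ) + 2) ∧ Form g (sowRight x (2 * (n : ℤ) + 2)) ∧
      Eqv g (negInt (n + 1)) := by
    cases n with
    | zero =>
      have hs := h.right_last (by omega)
      exact ⟨_, hs.1, hs.2.form (by omega), Eqv.refl _⟩
    | succ m =>
      have hs := h.right_step (by omega)
      obtain ⟨g, hg, hv⟩ := IsS.value m _ hs.2 (by omega)
      exact ⟨g, hs.1, hg, hv⟩
  obtain ⟨g, hr, hg, hgv⟩ := hR
  refine ⟨g, form_single (2 * (n : ℤ) + 2) (2 * (n : ℤ) + 2) ?_ hr ?_ ?_ ?_ hg, hgv⟩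
  · refine ⟨by rw [hv]; norm_num, ?_⟩
    rw [hv]
    have := h.1.2.2
    rw [show 2 * (n : ℤ) + 2 + ((2 : ℕ) : ℤ) = 2 * ((n + 1 : ℕ) : ℤ) + 2 by push_cast; ring]
    omega
  · intro j hj
    have := (h.left_legal (Nat.lt_succ_self n) hj).2
    rw [this]
    push_cast
    ring
  · intro j hj
    rcases h.right_legal (Nat.lt_succ_self n) hj with h' | ⟨_, h'⟩
    · exact h'
    · omega
  · obtain ⟨⟨h0, h1, h2⟩, ho, hm⟩ := h
    have hy0 : 2 * n + 6 ≤ sowLeft x (2 * (n : ℤ) + 2) 0 := by
      unfold sowLeft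
      rw [if_neg (by omega), hv, if_neg (by push_cast; omega)]
      omega
    have hy1 : 2 * n + 6 ≤ sowLeft x (2 * (n : ℤ) + 2) (2 * ((n + 1 : ℕ) : ℤ) + 1) := by
      unfold sowLeft
      rw [if_neg (by push_cast; omega), hv, if_pos (by push_cast; omega)]
      omega
    have hy2 : 2 * n + 6 ≤ sowLeft x (2 * (n : ℤ) + 2) (2 * ((n + 1 : ℕ) : ℤ) + 2) := by
      unfold sowLeft
      rw [if_neg (by push_cast; omega), hv, if_pos (by push_cast; omega)]
      omega
    have hyo : ∀ j, (j < 0 ∨ 2 * (n : ℤ) + 4 < j) → sowLeft x (2 * (n : ℤ) + 2) j = 0 := by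
      intro j hj
      unfold sowLeft
      rw [if_neg (by omega), hv, if_neg (by push_cast; omega)]
      exact ho j (by push_cast; omega)
    have hym : ∀ j, 0 < j → j ≤ 2 * (n : ℤ) + 2 → sowLeft x (2 * (n : ℤ) + 2) j =
        if j % 2 = 0 then (if j ≤ 2 * (n : ℤ) then 1 else 0) else 0 := by
      intro j hj1 hj2
      have hj := hm j hj1 (by push_cast; omega)
      unfold sowLeft
      rw [hv, hj]
      push_cast
      split_ifs <;> omega
    generalize sowLeft x (2 * (n : ℤ) + 2) = y at hy0 hy1 hy2 hyo hym ⊢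
    push_cast at hy1 hy2
    apply form_zero
    · intro i hi
      obtain ⟨hi1, hi2⟩ := hi
      have hr : 0 ≤ i ∧ i ≤ 2 * (n : ℤ) + 4 := by
        by_contra hh
        exact hi1 (hyo i (by omega))
      apply hi2
      by_cases c0 : i = 0
      · subst c0
        exact hyo _ (by omega)
      by_cases c1 : i = 2 * (n + 1) + 1
      · subst c1
        exact hyo _ (by omega)
      by_cases c2 : i = 2 * (n + 1) + 2
      · subst c2
        exact hyo _ (by omega)
      have hmi := hym i (by omega) (by omega)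
      split_ifs at hmi with d1 d2
      · rw [hmi]
        rw [hym (i + ((1 : ℕ) : ℤ)) (by push_cast; omega) (by push_cast; omega),
          if_neg (by push_cast; omega)]
      · exact absurd hmi hi1
      · exact absurd hmi hi1
    · intro i hi
      obtain ⟨hi1, hi2⟩ := hi
      have hr : 0 ≤ i ∧ i ≤ 2 * (n : ℤ) + 4 := by
        by_contra hh
        exact hi1 (hyo i (by omega))
      apply hi2
      by_cases c0 : i = 0
      · subst c0
        exact hyo _ (by omega)
      by_cases c1 : i = 2 * (n + 1) + 1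
      · subst c1
        exact hyo _ (by omega)
      by_cases c2 : i = 2 * (n + 1) + 2
      · subst c2
        exact hyo _ (by omega)
      have hmi := hym i (by omega) (by omega)
      split_ifs at hmi with d1 d2
      · rw [hmi]
        rw [hym (i - ((1 : ℕ) : ℤ)) (by push_cast; omega) (by push_cast; omega),
          if_neg (by push_cast; omega)]
      · exact absurd hmi hi1
      · exact absurd hmi hi1

/-- The position `F (01)^n F F 3`, where the three pots `F` hold `2 n + 9` seeds each. -/
def tinyPos (n : ℕ) : ℤ → ℕ := fun j =>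
  if j = 0 ∨ j = 2 * (n : ℤ) + 1 ∨ j = 2 * (n : ℤ) + 2 then 2 * n + 9
  else if j = 2 * (n : ℤ) + 3 then 3
  else if 0 < j ∧ j ≤ 2 * (n : ℤ) ∧ j % 2 = 0 then 1 else 0

theorem tinyPos_isPosition (n : ℕ) : IsPosition (tinyPos n) := by
  refine (Set.finite_Icc (0 : ℤ) (2 * n + 3)).subset fun i hi => ?_
  rw [Set.mem_Icc]
  by_contra hc
  apply hi
  unfold tinyPos
  rw [if_neg (by omega), if_neg (by omega), if_neg (by omega)]

theorem tinyPos_value (m : ℕ) : HasValue (tinyPos (m + 1)) (tiny (m + 1)) := by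
  have e0 : tinyPos (m + 1) 0 = 2 * m + 11 := by
    unfold tinyPos
    rw [if_pos (by omega)]
    ring
  have e1 : tinyPos (m + 1) (2 * (m : ℤ) + 3) = 2 * m + 11 := by
    unfold tinyPos
    rw [if_pos (by push_cast; omega)]
    ring
  have e2 : tinyPos (m + 1) (2 * (m : ℤ) + 4) = 2 * m + 11 := by
    unfold tinyPos
    rw [if_pos (by push_cast; omega)]
    ring
  have e3 : tinyPos (m + 1) (2 * (m : ℤ) + 5) = 3 := by
    unfold tinyPos
    rw [if_neg (by push_cast; omega), if_pos (by push_cast; omega)]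
  have eo : ∀ j, (j < 0 ∨ 2 * (m : ℤ) + 5 < j) → tinyPos (m + 1) j = 0 := by
    intro j hj
    unfold tinyPos
    rw [if_neg (by push_cast; omega), if_neg (by push_cast; omega), if_neg (by push_cast; omega)]
  have em : ∀ j, 0 < j → j ≤ 2 * (m : ℤ) + 2 →
      tinyPos (m + 1) j = if j % 2 = 0 then 1 else 0 := by
    intro j hj1 hj2
    unfold tinyPos
    rw [if_neg (by push_cast; omega), if_neg (by push_cast; omega)]
    by_cases h : j % 2 = 0
    · rw [if_pos (by push_cast; omega), if_pos h]
    · rw [if_neg (by push_cast; omega), if_neg h]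
  generalize tinyPos (m + 1) = x at e0 e1 e2 e3 eo em ⊢
  have ex : x (2 * (m : ℤ) + 2) = 1 := by
    rw [em _ (by omega) (by omega), if_pos (by omega)]
  have hS : IsS (m + 1) m (sowRight x (2 * (m : ℤ) + 5)) := by
    refine ⟨⟨?_, ?_, ?_⟩, ?_, ?_⟩
    · unfold sowRight
      rw [if_neg (by omega), e3, if_neg (by push_cast; omega)]
      omega
    · unfold sowRight
      rw [if_neg (by push_cast; omega), e3, if_pos (by push_cast; omega),
        show 2 * ((m + 1 : ℕ) : ℤ) + 1 = 2 * (m : ℤ) + 3 by push_cast; ring]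
      omega
    · unfold sowRight
      rw [if_neg (by push_cast; omega), e3, if_pos (by push_cast; omega),
        show 2 * ((m + 1 : ℕ) : ℤ) + 2 = 2 * (m : ℤ) + 4 by push_cast; ring]
      omega
    · intro j hj
      unfold sowRight
      push_cast at hj
      by_cases h5 : j = 2 * (m : ℤ) + 5
      · rw [if_pos h5]
      · rw [if_neg h5, e3, if_neg (by push_cast; omega)]
        exact eo j (by omega)
    · intro j hj1 hj2
      push_cast at hj2
      have hj := em j hj1 (by omega)
      unfold sowRight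
      rw [e3, hj]
      push_cast
      split_ifs <;> omega
  obtain ⟨g, hg, hgv⟩ := hS.value_top
  refine ⟨_, form_single (2 * (m : ℤ) + 2) (2 * (m : ℤ) + 5) ?_ ?_ ?_ ?_ ?_ hg,
    eqv_single (Eqv.refl _) (eqv_single (Eqv.refl _) hgv)⟩
  · refine ⟨by rw [ex]; norm_num, ?_⟩
    rw [ex, show 2 * (m : ℤ) + 2 + ((1 : ℕ) : ℤ) = 2 * (m : ℤ) + 3 by push_cast; ring, e1]
    omega
  · refine ⟨by rw [e3]; norm_num, ?_⟩
    rw [e3, show 2 * (m : ℤ) + 5 - ((3 : ℕ) : ℤ) = 2 * (m : ℤ) + 2 by push_cast; ring, ex]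
    norm_num
  · intro i hi
    by_contra hcon
    obtain ⟨hi1, hi2⟩ := hi
    have hr : 0 ≤ i ∧ i ≤ 2 * (m : ℤ) + 5 := by
      by_contra hh
      exact hi1 (eo i (by omega))
    apply hi2
    by_cases c0 : i = 0
    · subst c0
      exact eo _ (by omega)
    by_cases c1 : i = 2 * (m : ℤ) + 3
    · subst c1
      exact eo _ (by omega)
    by_cases c2 : i = 2 * (m : ℤ) + 4
    · subst c2
      exact eo _ (by omega)
    by_cases c3 : i = 2 * (m : ℤ) + 5
    · subst c3
      exact eo _ (by omega)
    have hmi := em i (by omega) (by omega)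
    split_ifs at hmi with d1
    · rw [hmi]
      rw [em (i + ((1 : ℕ) : ℤ)) (by push_cast; omega) (by push_cast; omega),
        if_neg (by push_cast; omega)]
    · exact absurd hmi hi1
  · intro i hi
    by_contra hcon
    obtain ⟨hi1, hi2⟩ := hi
    have hr : 0 ≤ i ∧ i ≤ 2 * (m : ℤ) + 5 := by
      by_contra hh
      exact hi1 (eo i (by omega))
    apply hi2
    by_cases c0 : i = 0
    · subst c0
      exact eo _ (by omega)
    by_cases c1 : i = 2 * (m : ℤ) + 3
    · subst c1
      exact eo _ (by omega)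
    by_cases c2 : i = 2 * (m : ℤ) + 4
    · subst c2
      exact eo _ (by omega)
    have hmi := em i (by omega) (by omega)
    split_ifs at hmi with d1
    · rw [hmi]
      rw [em (i - ((1 : ℕ) : ℤ)) (by push_cast; omega) (by push_cast; omega),
        if_neg (by push_cast; omega)]
    · exact absurd hmi hi1
  · have y0 : 2 * m + 6 ≤ sowLeft x (2 * (m : ℤ) + 2) 0 := by
      unfold sowLeft
      rw [if_neg (by omega), ex, if_neg (by push_cast; omega)]
      omega
    have y1 : 2 * m + 6 ≤ sowLeft x (2 * (m : ℤ) + 2) (2 * (m : ℤ) + 3) := by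
      unfold sowLeft
      rw [if_neg (by omega), ex, if_pos (by push_cast; omega)]
      omega
    have y2 : 2 * m + 6 ≤ sowLeft x (2 * (m : ℤ) + 2) (2 * (m : ℤ) + 4) := by
      unfold sowLeft
      rw [if_neg (by omega), ex, if_neg (by push_cast; omega)]
      omega
    have y3 : sowLeft x (2 * (m : ℤ) + 2) (2 * (m : ℤ) + 5) = 3 := by
      unfold sowLeft
      rw [if_neg (by omega), ex, if_neg (by push_cast; omega)]
      exact e3
    have yo : ∀ j, (j < 0 ∨ 2 * (m : ℤ) + 5 < j) → sowLeft x (2 * (m : ℤ) + 2) j = 0 := by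
      intro j hj
      unfold sowLeft
      rw [if_neg (by omega), ex, if_neg (by push_cast; omega)]
      exact eo j hj
    have ym : ∀ j, 0 < j → j ≤ 2 * (m : ℤ) + 2 → sowLeft x (2 * (m : ℤ) + 2) j =
        if j % 2 = 0 then (if j ≤ 2 * (m : ℤ) then 1 else 0) else 0 := by
      intro j hj1 hj2
      have hj := em j hj1 hj2
      unfold sowLeft
      rw [ex, hj]
      push_cast
      split_ifs <;> omega
    generalize sowLeft x (2 * (m : ℤ) + 2) = y at y0 y1 y2 y3 yo ym ⊢
    apply form_zero
    · intro i hi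
      obtain ⟨hi1, hi2⟩ := hi
      have hr : 0 ≤ i ∧ i ≤ 2 * (m : ℤ) + 5 := by
        by_contra hh
        exact hi1 (yo i (by omega))
      apply hi2
      by_cases c0 : i = 0
      · subst c0
        exact yo _ (by omega)
      by_cases c1 : i = 2 * (m : ℤ) + 3
      · subst c1
        exact yo _ (by omega)
      by_cases c2 : i = 2 * (m : ℤ) + 4
      · subst c2
        exact yo _ (by omega)
      by_cases c3 : i = 2 * (m : ℤ) + 5
      · subst c3
        exact yo _ (by omega)
      have hmi := ym i (by omega) (by omega)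
      split_ifs at hmi with d1 d2
      · rw [hmi]
        rw [ym (i + ((1 : ℕ) : ℤ)) (by push_cast; omega) (by push_cast; omega),
          if_neg (by push_cast; omega)]
      · exact absurd hmi hi1
      · exact absurd hmi hi1
    · intro i hi
      obtain ⟨hi1, hi2⟩ := hi
      have hr : 0 ≤ i ∧ i ≤ 2 * (m : ℤ) + 5 := by
        by_contra hh
        exact hi1 (yo i (by omega))
      apply hi2
      by_cases c0 : i = 0
      · subst c0
        exact yo _ (by omega)
      by_cases c1 : i = 2 * (m : ℤ) + 3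
      · subst c1
        exact yo _ (by omega)
      by_cases c2 : i = 2 * (m : ℤ) + 4
      · subst c2
        exact yo _ (by omega)
      by_cases c3 : i = 2 * (m : ℤ) + 5
      · subst c3
        rw [y3]
        rw [ym (2 * (m : ℤ) + 5 - ((3 : ℕ) : ℤ)) (by push_cast; omega) (by push_cast; omega),
          if_pos (by push_cast; omega), if_neg (by push_cast; omega)]
      have hmi := ym i (by omega) (by omega)
      split_ifs at hmi with d1 d2
      · rw [hmi]
        rw [ym (i - ((1 : ℕ) : ℤ)) (by push_cast; omega) (by push_cast; omega),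
          if_neg (by push_cast; omega)]
      · exact absurd hmi hi1
      · exact absurd hmi hi1

theorem exists_value {x : ℤ → ℕ} (hx : IsPosition x) : ∃ v, HasValue x v := by
  obtain ⟨g, hg⟩ := exists_form hx
  exact ⟨g, g, hg, Eqv.refl g⟩

end

end Pool.Agent.H395.Sowing
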